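import Pool.Agent.Helper92.ZH.Goals
import Pool.Agent.Helper92.PN.BlockRoth
import Pool.Agent.Helper81.VN.BRU

/-!
# MP_a41896_nt, project T3, packet BRH: block Roth lemma, two blocks, one variable missing
-/

set_option autoImplicit false

open MvPolynomial

namespace Pool.Agent.Helper14.ZH.BRH

open Pool.Agent.Helper92.Ru Pool.Agent.Helper42.SG Pool.Agent.Helper68.VN
open Pool.Agent.Helper81.VN.BRU

/-- the embedding of the variables -/
def em {σ : Type} (i' : σ) : σ ⊕ {i : σ // i ≠ i'} → Fin 2 × σ :=
  Sum.elim (fun i => (0, i)) (fun i => (1, i.1))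

theorem em_inj {σ : Type} (i' : σ) : Function.Injective (em i') := by
  intro x y h
  rcases x with x | x <;> rcases y with y | y
  · simp only [em, Sum.elim_inl, Prod.mk.injEq, true_and] at h
    rw [h]
  · simp [em] at h
  · simp [em] at h
  · simp only [em, Sum.elim_inr, Prod.mk.injEq, true_and] at h
    rw [Subtype.ext h]

theorem em_range {σ : Type} (i' : σ) (h : Fin 2 × σ) (hh : h ≠ (1, i')) : h ∈ Set.range (em i') := by
  obtain ⟨j, i⟩ := h
  fin_cases j
  · exact ⟨Sum.inl i, rfl⟩
  · refine ⟨Sum.inr ⟨i, ?_⟩, rfl⟩
    rintro rfl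
    exact hh rfl

/-- the index of a polynomial in a part of the variables -/
theorem IndGe_sub {k : Type} [Field k] {τ υ : Type} [Fintype τ] [Fintype υ] (e : τ → υ)
    (he : Function.Injective e) (r : υ → ℕ) (ξ : υ → k) (θ : ℝ) (p : MvPolynomial τ k)
    (h : IndGe r ξ θ (rename e p)) : IndGe (fun h => r (e h)) (fun h => ξ (e h)) θ p := by
  classical
  intro w hw
  have h1 : Finsupp.mapDomain e w ∈ (shiftP ξ (rename e p)).support := by
    rw [shift_rename, mem_support_rename e he]
    exact hw
  refine (h _ h1).trans (le_of_eq ?_)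
  symm
  apply Fintype.sum_of_injective e he
  · intro i hi
    rw [Finsupp.mapDomain_of_notMem_range _ _ hi]
    simp
  · intro i
    rw [Finsupp.mapDomain_apply he]

theorem t : Pool.Agent.Helper92.ZH.BRH := by
  classical
  intro k _ _ σ _ _ ι hι
  obtain ⟨D, Kc, ω, hK, hω, hω1, hB⟩ :=
    Pool.Agent.Helper92.PN.blockRothG (Fintype.card σ + (Fintype.card σ - 1)) k ι hι
  refine ⟨D, Kc, ω, hK, hω, hω1, ?_⟩
  intro i' d ξ H W p hd hdd hp hpi hW hdeg hPH hInd
  -- the polynomial in the variables of the blocks
  obtain ⟨p', hp'⟩ : ∃ p' : MvPolynomial (σ ⊕ {i : σ // i ≠ i'}) k, rename (em i') p' = p := by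
    apply exists_rename_eq_of_vars_subset_range p (em i') (em_inj i')
    intro h hh
    apply em_range
    rintro rfl
    exact (mem_vars_iff_degreeOf_ne_zero.1 hh) hpi
  have hcard : Fintype.card {i : σ // i ≠ i'} = Fintype.card σ - 1 := by
    rw [Fintype.card_subtype_compl]
    simp
  let N : σ ⊕ {i : σ // i ≠ i'} ≃ Fin (Fintype.card σ + (Fintype.card σ - 1)) :=
    (Equiv.sumCongr (Fintype.equivFin σ) (Fintype.equivFinOfCardEq hcard)).trans finSumFinEquiv
  let b : Fin (Fintype.card σ + (Fintype.card σ - 1)) → ℕ :=
    fun a => if a.val < Fintype.card σ then 0 else 1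
  have hb : ∀ g, b (N g) = ((em i' g).1 : Fin 2).val := by
    intro g
    rcases g with g | g
    · simp [b, N, em]
    · simp [b, N, em]
  have hd' : ∀ g, (if b (N g) = 0 then d 0 else d 1) = d (em i' g).1 := by
    intro g
    rw [hb]
    rcases g with g | g <;> simp [em]
  let ξ' : Fin (Fintype.card σ + (Fintype.card σ - 1)) → k :=
    fun a => ξ (em i' (N.symm a)).1 (em i' (N.symm a)).2
  have hξ' : ∀ g, ξ' (N g) = ξ (em i' g).1 (em i' g).2 := by
    intro g
    simp only [ξ', Equiv.symm_apply_apply]
  obtain ⟨h₀, f, hf0, hfD, hfb, hfe, hfh⟩ := hB b (fun j => if j = 0 then d 0 else d 1) ξ' H W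
    (rename N p') (by
      intro a a' haa
      simp only [b]
      have : a.val ≤ a'.val := haa
      split_ifs <;> omega) (by
      intro a
      obtain ⟨g, rfl⟩ := N.surjective a
      simp only [hd']
      exact hd _) (by
      intro a a' haa
      simp only [b] at haa ⊢
      split_ifs at haa ⊢ <;> first | omega | exact hdd | (exfalso; omega)) (by
      refine ⟨?_, hW, ?_, ?_, ?_⟩
      · intro h0
        apply hp
        have : p' = 0 := by
          apply rename_injective _ N.injective
          rw [h0, map_zero]
        rw [← hp', this, map_zero]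
      · intro a
        obtain ⟨g, rfl⟩ := N.surjective a
        rw [degreeOf_rename_of_injective N.injective]
        simp only [hd']
        have := hdeg (em i' g)
        rw [← hp', degreeOf_rename_of_injective (em_inj i')] at this
        exact this
      · rw [PH_rename _ N.injective]
        rw [← hp', PH_rename _ (em_inj i')] at hPH
        exact hPH
      · apply IndGe_rename N
        have h1 : (fun g => (if b (N g) = 0 then d 0 else d 1)) = fun g => d (em i' g).1 := by
          funext g; exact hd' g
        have h2 : (fun g => ξ' (N g)) = fun g => ξ (em i' g).1 (em i' g).2 := by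
          funext g; exact hξ' g
        rw [h1, h2]
        apply IndGe_sub (em i') (em_inj i') (fun h : Fin 2 × σ => d h.1)
          (fun h : Fin 2 × σ => ξ h.1 h.2)
        rw [hp']
        exact hInd)
  obtain ⟨g₀, rfl⟩ := N.surjective h₀
  have hfh' : (d (em i' g₀).1 : ℝ) * Real.log (PH f) ≤ Kc * H := by
    have := hfh
    simp only [hd'] at this
    exact this
  rcases g₀ with g₀ | g₀
  · left
    let e0 : σ → Fin (Fintype.card σ + (Fintype.card σ - 1)) := fun i => N (Sum.inl i)
    have he0 : Function.Injective e0 := fun i j hij => Sum.inl_injective (N.injective hij)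
    obtain ⟨f', hf'⟩ : ∃ f' : MvPolynomial σ k, rename e0 f' = f := by
      apply exists_rename_eq_of_vars_subset_range f e0 he0
      intro a ha
      have ha' := mem_vars_iff_degreeOf_ne_zero.1 ha
      obtain ⟨g, rfl⟩ := N.surjective a
      rcases g with g | g
      · exact ⟨g, rfl⟩
      · exfalso
        apply ha'
        apply hfb
        rw [hb, hb]
        simp [em]
    refine ⟨f', ?_, ?_, ?_, ?_⟩
    · rintro rfl
      apply hf0
      rw [← hf', map_zero]
    · intro i
      have := hfD (e0 i)
      rw [← hf', degreeOf_rename_of_injective he0] at this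
      exact this
    · rw [← hf', eval_rename] at hfe
      rw [← hfe]
      congr 1
      have : ξ' ∘ e0 = ξ 0 := by
        funext i
        simp only [Function.comp_apply, e0, hξ', em, Sum.elim_inl]
      rw [this]
    · rw [← hf', PH_rename _ he0] at hfh'
      exact hfh'
  · right
    let e1 : {i : σ // i ≠ i'} → Fin (Fintype.card σ + (Fintype.card σ - 1)) :=
      fun i => N (Sum.inr i)
    have he1 : Function.Injective e1 := fun i j hij => Sum.inr_injective (N.injective hij)
    obtain ⟨f', hf'⟩ : ∃ f' : MvPolynomial {i : σ // i ≠ i'} k, rename e1 f' = f := by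
      apply exists_rename_eq_of_vars_subset_range f e1 he1
      intro a ha
      have ha' := mem_vars_iff_degreeOf_ne_zero.1 ha
      obtain ⟨g, rfl⟩ := N.surjective a
      rcases g with g | g
      · exfalso
        apply ha'
        apply hfb
        rw [hb, hb]
        simp [em]
      · exact ⟨g, rfl⟩
    have hzero : (rename (Subtype.val : {i : σ // i ≠ i'} → σ) f').degreeOf i' = 0 := by
      by_contra hne
      have h1 := mem_vars_iff_degreeOf_ne_zero.2 hne
      have h2 := vars_rename (Subtype.val : {i : σ // i ≠ i'} → σ) f' h1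
      rw [Finset.mem_image] at h2
      obtain ⟨⟨i, hi⟩, -, hi2⟩ := h2
      exact hi hi2
    refine ⟨rename Subtype.val f', ?_, ?_, hzero, ?_, ?_⟩
    · intro h0
      apply hf0
      have : f' = 0 := by
        apply rename_injective _ Subtype.val_injective
        rw [h0, map_zero]
      rw [← hf', this, map_zero]
    · intro i
      by_cases hi : i = i'
      · rw [hi, hzero]; exact Nat.zero_le _
      · have := hfD (e1 ⟨i, hi⟩)
        rw [← hf', degreeOf_rename_of_injective he1] at this
        have h2 : (rename (Subtype.val : {i : σ // i ≠ i'} → σ) f').degreeOf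
            ((⟨i, hi⟩ : {i : σ // i ≠ i'}) : σ) = f'.degreeOf ⟨i, hi⟩ :=
          degreeOf_rename_of_injective Subtype.val_injective _
        rw [← h2] at this
        exact this
    · rw [← hf', eval_rename] at hfe
      rw [eval_rename, ← hfe]
      congr 1
      have : ξ' ∘ e1 = ξ 1 ∘ Subtype.val := by
        funext i
        simp only [Function.comp_apply, e1, hξ', em, Sum.elim_inr]
      rw [this]
    · rw [← hf', PH_rename _ he1] at hfh'
      rw [PH_rename _ Subtype.val_injective]
      exact hfh'

end Pool.Agent.Helper14.ZH.BRH
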